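import Mathlib
import Pool.Agent.H.MP_807794_lc.A

set_option autoImplicit false

namespace Pool.Agent.Results.MP_807794_lc.Yes

open Cardinal Ordinal Pool.Agent.H.MP_6e75db_lc Pool.Agent.H.MP_807794_lc

theorem result (hc : (𝔠 : Cardinal.{0}) = ℵ₁ ∨ 𝔠 < (2 : Cardinal.{0}) ^ ℵ₁) (T : Type) [PartialOrder T]
    (h : T → (ω₁ : Ordinal.{0}).ToType) (ht : Tr T h) (hl : ∀ a, (h ⁻¹' {a}).Countable)
    (C : (ω₁ : Ordinal.{0}).ToType → Set (ω₁ : Ordinal.{0}).ToType) (hC : Lad C)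
    (hU : ∀ f, ∃ (S : Set T) (φ : T → ℕ), S.Nonempty ∧
      (∀ s ∈ S, ∀ a, ∃ t ∈ S, s ≤ t ∧ a ≤ h t) ∧ Un h C f S φ) :
    ∃ A : Set T, IsAntichain (· ≤ ·) A ∧ IsStationary (h '' A) :=
  H.MP_807794_lc.main (hc.elim (fun e => e.trans_lt (cantor _)) id) ht hl hC fun f =>
    let ⟨S, φ, ⟨s, a⟩, b, c⟩ := hU f
    ⟨S, φ, fun x => (b s a x).imp fun _ h => ⟨h.1, h.2.2⟩, c⟩

end Pool.Agent.Results.MP_807794_lc.Yes
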